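import Mathlib

/-!
# MP_e0e9b7_co: a Clark–Suen type bound (Q1 up to a factor two when `γ(G) = ι(G)`)
-/

set_option autoImplicit false

namespace Pool.Agent.Results.MP_e0e9b7_co.ClarkSuenType

open Finset Classical

variable {V W : Type*}

/-- `x` lies in the closed neighbourhood of `v`. -/
def InN (G : SimpleGraph V) (x v : V) : Prop := x = v ∨ G.Adj x v

/-- `A` is an isolating set of `G`: no edge has both endpoints outside `N[A]`. -/
def IsIsolating (G : SimpleGraph V) (A : Finset V) : Prop :=
  ∀ u v, G.Adj u v → (∃ a ∈ A, InN G a u) ∨ (∃ a ∈ A, InN G a v)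

/-- `A` is a dominating set of `G`: `N[A] = V(G)`. -/
def IsDominating (G : SimpleGraph V) (A : Finset V) : Prop :=
  ∀ v, ∃ a ∈ A, InN G a v

/-- the isolation number -/
noncomputable def isoNum (G : SimpleGraph V) : ℕ :=
  sInf {n : ℕ | ∃ A : Finset V, IsIsolating G A ∧ A.card = n}

/-- the domination number -/
noncomputable def domNum (G : SimpleGraph V) : ℕ :=
  sInf {n : ℕ | ∃ A : Finset V, IsDominating G A ∧ A.card = n}

lemma isoNum_le {G : SimpleGraph V} {A : Finset V} (h : IsIsolating G A) : isoNum G ≤ A.card :=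
  Nat.sInf_le ⟨A, h, rfl⟩

lemma domNum_le {G : SimpleGraph V} {A : Finset V} (h : IsDominating G A) : domNum G ≤ A.card :=
  Nat.sInf_le ⟨A, h, rfl⟩

lemma exists_iso [Fintype V] (G : SimpleGraph V) :
    ∃ A : Finset V, IsIsolating G A ∧ A.card = isoNum G := by
  have : (Finset.univ : Finset V).card ∈ {n : ℕ | ∃ A : Finset V, IsIsolating G A ∧ A.card = n} :=
    ⟨Finset.univ, fun u v _ => Or.inl ⟨u, Finset.mem_univ _, Or.inl rfl⟩, rfl⟩
  exact Nat.sInf_mem ⟨_, this⟩

lemma exists_dom [Fintype V] (G : SimpleGraph V) :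
    ∃ A : Finset V, IsDominating G A ∧ A.card = domNum G := by
  have : (Finset.univ : Finset V).card ∈ {n : ℕ | ∃ A : Finset V, IsDominating G A ∧ A.card = n} :=
    ⟨Finset.univ, fun u => ⟨u, Finset.mem_univ _, Or.inl rfl⟩, rfl⟩
  exact Nat.sInf_mem ⟨_, this⟩

lemma iso_le_dom [Fintype V] (G : SimpleGraph V) : isoNum G ≤ domNum G := by
  obtain ⟨A, hA, hc⟩ := exists_dom G
  have h1 : IsIsolating G A := fun u v _ => Or.inl (hA u)
  rw [← hc]
  exact isoNum_le h1

theorem main [Fintype V] [Fintype W] (G : SimpleGraph V) (H : SimpleGraph W) :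
    domNum G * domNum H
      ≤ 2 * isoNum (G.boxProd H) + (domNum G - isoNum G) * Fintype.card W := by
  obtain ⟨A, hA, hAc⟩ := exists_iso (G.boxProd H)
  obtain ⟨D, hD, hDc⟩ := exists_dom G
  choose f hfD hfN using hD
  let P : V → Finset W := fun i => (A.filter (fun x => f x.1 = i)).image Prod.snd
  let M : V → Finset W := fun i => Finset.univ.filter (fun h => ∀ p ∈ P i, ¬ InN H p h)
  have h1 : ∀ i, domNum H ≤ (A.filter (fun x => f x.1 = i)).card + (M i).card := by
    intro i
    have hdom : IsDominating H (P i ∪ M i) := by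
      intro h
      by_cases hh : ∀ p ∈ P i, ¬ InN H p h
      · exact ⟨h, Finset.mem_union_right _ (Finset.mem_filter.mpr ⟨Finset.mem_univ _, hh⟩), Or.inl rfl⟩
      · push Not at hh
        obtain ⟨p, hp, hp'⟩ := hh
        exact ⟨p, Finset.mem_union_left _ hp, hp'⟩
    calc domNum H ≤ (P i ∪ M i).card := domNum_le hdom
      _ ≤ (P i).card + (M i).card := Finset.card_union_le _ _
      _ ≤ _ := Nat.add_le_add_right Finset.card_image_le _
  have h2 : ∀ h : W, isoNum G + (D.filter (fun i => h ∈ M i)).card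
      ≤ (A.filter (fun x => x.2 = h)).card + D.card := by
    intro h
    let B : Finset V := (A.filter (fun x => x.2 = h)).image Prod.fst ∪ D.filter (fun i => h ∉ M i)
    have aux : ∀ u : V, (∃ a ∈ A, InN (G.boxProd H) a (u, h)) → ∃ a ∈ B, InN G a u := by
      rintro u ⟨⟨a, b⟩, ha, hab⟩
      by_cases hu : h ∈ M (f u)
      · have hcase : InN G a u ∧ b = h := by
          rcases hab with h3 | h3
          · exact ⟨Or.inl (congrArg Prod.fst h3), congrArg Prod.snd h3⟩
          · rw [SimpleGraph.boxProd_adj] at h3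
            rcases h3 with ⟨h4, h5⟩ | ⟨h4, h5⟩
            · exact ⟨Or.inr h4, h5⟩
            · exfalso
              have hmem : b ∈ P (f u) := by
                refine Finset.mem_image.mpr ⟨(a, b), Finset.mem_filter.mpr ⟨ha, ?_⟩, rfl⟩
                show f a = f u
                have : a = u := h5
                rw [this]
              exact (Finset.mem_filter.mp hu).2 b hmem (Or.inr h4)
        exact ⟨a, Finset.mem_union_left _ (Finset.mem_image.mpr
          ⟨(a, b), Finset.mem_filter.mpr ⟨ha, hcase.2⟩, rfl⟩), hcase.1⟩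
      · exact ⟨f u, Finset.mem_union_right _ (Finset.mem_filter.mpr ⟨hfD u, hu⟩), hfN u⟩
    have hiso : IsIsolating G B := by
      intro u v huv
      rcases hA (u, h) (v, h) (SimpleGraph.boxProd_adj_left.mpr huv) with h3 | h3
      · exact Or.inl (aux u h3)
      · exact Or.inr (aux v h3)
    have hB : B.card ≤ (A.filter (fun x => x.2 = h)).card + (D.filter (fun i => h ∉ M i)).card :=
      (Finset.card_union_le _ _).trans (Nat.add_le_add_right Finset.card_image_le _)
    have hsplit : (D.filter (fun i => h ∈ M i)).card + (D.filter (fun i => h ∉ M i)).card = D.card :=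
      Finset.card_filter_add_card_filter_not _
    have := isoNum_le hiso
    omega
  have h3 : ∑ i ∈ D, (M i).card = ∑ h : W, (D.filter (fun i => h ∈ M i)).card := by
    have e1 : ∀ i, (M i).card = ∑ h : W, (if h ∈ M i then 1 else 0) := by
      intro i; simp
    simp only [Finset.card_filter]
    rw [Finset.sum_congr rfl (fun i _ => e1 i), Finset.sum_comm]
  have h4 : ∑ i ∈ D, (A.filter (fun x => f x.1 = i)).card = A.card :=
    (Finset.card_eq_sum_card_fiberwise (fun x _ => hfD x.1)).symm
  have h5 : ∑ h : W, (A.filter (fun x => x.2 = h)).card = A.card :=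
    (Finset.card_eq_sum_card_fiberwise (fun x _ => Finset.mem_coe.mpr (Finset.mem_univ x.2))).symm
  have h6 : D.card * domNum H ≤ A.card + ∑ i ∈ D, (M i).card := by
    calc D.card * domNum H = ∑ i ∈ D, domNum H := by simp
      _ ≤ ∑ i ∈ D, ((A.filter (fun x => f x.1 = i)).card + (M i).card) :=
          Finset.sum_le_sum (fun i _ => h1 i)
      _ = _ := by rw [Finset.sum_add_distrib, h4]
  have h7 : ∑ h : W, (D.filter (fun i => h ∈ M i)).card ≤ A.card + (D.card - isoNum G) * Fintype.card W := by
    calc ∑ h : W, (D.filter (fun i => h ∈ M i)).card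
        ≤ ∑ h : W, ((A.filter (fun x => x.2 = h)).card + (D.card - isoNum G)) :=
          Finset.sum_le_sum (fun h _ => by have := h2 h; omega)
      _ = _ := by
          rw [Finset.sum_add_distrib, h5, Finset.sum_const, smul_eq_mul, Finset.card_univ, mul_comm]
  rw [← hDc, ← hAc]
  rw [h3] at h6
  omega

/-- **A Clark–Suen type bound for the isolation number.**  For all finite graphs `G`, `H`,
`γ(G) γ(H) ≤ 2 ι(G □ H) + (γ(G) - ι(G)) |V(H)|`; in particular, if `γ(G) = ι(G)` then
`ι(G □ H) ≥ ι(G) γ(H) / 2 ≥ ι(G) ι(H) / 2` for every `H`. -/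
theorem result [Fintype V] [Fintype W] (G : SimpleGraph V) (H : SimpleGraph W) :
    (domNum G * domNum H
      ≤ 2 * isoNum (G.boxProd H) + (domNum G - isoNum G) * Fintype.card W) ∧
    (domNum G = isoNum G → isoNum G * domNum H ≤ 2 * isoNum (G.boxProd H)) ∧
    (domNum G = isoNum G → isoNum G * isoNum H ≤ 2 * isoNum (G.boxProd H)) := by
  have h := main G H
  have h1 : domNum G = isoNum G → isoNum G * domNum H ≤ 2 * isoNum (G.boxProd H) := by
    intro e
    rw [e, Nat.sub_self, Nat.zero_mul, Nat.add_zero] at h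
    exact h
  exact ⟨h, h1, fun e => (Nat.mul_le_mul_left _ (iso_le_dom H)).trans (h1 e)⟩

end Pool.Agent.Results.MP_e0e9b7_co.ClarkSuenType
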