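import Mathlib

/-!
# MP_e0e9b7_co, Q1 when one factor is a forest, and general packing bounds

Key observations, for an isolating set `A` of `G □ H`: the projection to `H` of the part of `A` lying
over a closed neighbourhood `N[g]` is an isolating set of `H`, and the projection of the part lying
over `N[g] ∪ N[g']` for an edge `gg'` is a dominating set of `H`.  Both bounds are then multiplied up
by (fractional) packings; in a forest the two hypergraphs have equal packing and hitting numbers.
-/

set_option autoImplicit false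

namespace Pool.Agent.Results.MP_e0e9b7_co.ForestFactor

open Finset Classical

variable {V W : Type*}

/-- `x` lies in the closed neighbourhood of `v`. -/
def InN (G : SimpleGraph V) (x v : V) : Prop := x = v ∨ G.Adj x v

/-- `A` is an isolating set of `G`: no edge has both endpoints outside `N[A]`. -/
def IsIsolating (G : SimpleGraph V) (A : Finset V) : Prop :=
  ∀ u v, G.Adj u v → (∃ a ∈ A, InN G a u) ∨ (∃ a ∈ A, InN G a v)

/-- `A` is a dominating set of `G`: `N[A] = V(G)`. -/
def IsDominating (G : SimpleGraph V) (A : Finset V) : Prop :=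
  ∀ v, ∃ a ∈ A, InN G a v

/-- the isolation number -/
noncomputable def isoNum (G : SimpleGraph V) : ℕ :=
  sInf {n : ℕ | ∃ A : Finset V, IsIsolating G A ∧ A.card = n}

/-- the domination number -/
noncomputable def domNum (G : SimpleGraph V) : ℕ :=
  sInf {n : ℕ | ∃ A : Finset V, IsDominating G A ∧ A.card = n}

lemma isoNum_le {G : SimpleGraph V} {A : Finset V} (h : IsIsolating G A) : isoNum G ≤ A.card :=
  Nat.sInf_le ⟨A, h, rfl⟩

lemma domNum_le {G : SimpleGraph V} {A : Finset V} (h : IsDominating G A) : domNum G ≤ A.card :=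
  Nat.sInf_le ⟨A, h, rfl⟩

lemma exists_iso [Fintype V] (G : SimpleGraph V) :
    ∃ A : Finset V, IsIsolating G A ∧ A.card = isoNum G := by
  have : (Finset.univ : Finset V).card ∈ {n : ℕ | ∃ A : Finset V, IsIsolating G A ∧ A.card = n} :=
    ⟨Finset.univ, fun u v _ => Or.inl ⟨u, Finset.mem_univ _, Or.inl rfl⟩, rfl⟩
  exact Nat.sInf_mem ⟨_, this⟩

lemma iso_le_dom [Fintype V] (G : SimpleGraph V) : isoNum G ≤ domNum G := by
  have : (Finset.univ : Finset V).card ∈ {n : ℕ | ∃ A : Finset V, IsDominating G A ∧ A.card = n} :=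
    ⟨Finset.univ, fun u => ⟨u, Finset.mem_univ _, Or.inl rfl⟩, rfl⟩
  obtain ⟨A, hA, hc⟩ := Nat.sInf_mem (⟨_, this⟩ : Set.Nonempty _)
  have h1 : IsIsolating G A := fun u v _ => Or.inl (hA u)
  have h2 := isoNum_le h1
  have h3 : A.card = domNum G := hc
  omega

/-- weighted double counting -/
lemma frac {ι : Type*} (P : Finset ι) (S : ι → V → Prop) (y : ι → ℝ) (A : Finset (V × W)) (c : ℝ)
    (hy0 : ∀ i ∈ P, 0 ≤ y i)
    (hy : ∀ v, ∑ i ∈ P, (if S i v then y i else 0) ≤ 1)
    (hc : ∀ i ∈ P, y i ≠ 0 → c ≤ ((A.filter (fun x => S i x.1)).card : ℝ)) :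
    (∑ i ∈ P, y i) * c ≤ A.card := by
  calc (∑ i ∈ P, y i) * c = ∑ i ∈ P, y i * c := by rw [Finset.sum_mul]
    _ ≤ ∑ i ∈ P, y i * ((A.filter (fun x => S i x.1)).card : ℝ) := by
        apply Finset.sum_le_sum
        intro i hi
        by_cases h0 : y i = 0
        · rw [h0]; simp
        · exact mul_le_mul_of_nonneg_left (hc i hi h0) (hy0 i hi)
    _ = ∑ i ∈ P, ∑ x ∈ A, (if S i x.1 then y i else 0) := by
        apply Finset.sum_congr rfl
        intro i _
        rw [← Finset.sum_filter, Finset.sum_const, nsmul_eq_mul]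
        ring
    _ = ∑ x ∈ A, ∑ i ∈ P, (if S i x.1 then y i else 0) := Finset.sum_comm
    _ ≤ ∑ x ∈ A, (1 : ℝ) := Finset.sum_le_sum (fun x _ => hy x.1)
    _ = A.card := by simp

lemma fiber_iso (G : SimpleGraph V) (H : SimpleGraph W) (A : Finset (V × W))
    (hA : IsIsolating (G.boxProd H) A) (g : V) :
    isoNum H ≤ (A.filter (fun x => InN G x.1 g)).card := by
  have key : IsIsolating H ((A.filter (fun x => InN G x.1 g)).image Prod.snd) := by
    intro u v huv
    have h := hA (g, u) (g, v) (SimpleGraph.boxProd_adj_right.mpr huv)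
    have aux : ∀ w : W, (∃ a ∈ A, InN (G.boxProd H) a (g, w)) →
        ∃ a ∈ (A.filter (fun x => InN G x.1 g)).image Prod.snd, InN H a w := by
      rintro w ⟨⟨a, b⟩, ha, hab⟩
      rcases hab with h | h
      · have h1 : a = g := congrArg Prod.fst h
        have h2 : b = w := congrArg Prod.snd h
        refine ⟨b, Finset.mem_image.mpr ⟨(a, b), Finset.mem_filter.mpr ⟨ha, Or.inl h1⟩, rfl⟩, Or.inl h2⟩
      · rw [SimpleGraph.boxProd_adj] at h
        rcases h with ⟨h1, h2⟩ | ⟨h1, h2⟩
        · exact ⟨b, Finset.mem_image.mpr ⟨(a, b), Finset.mem_filter.mpr ⟨ha, Or.inr h1⟩, rfl⟩, Or.inl h2⟩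
        · exact ⟨b, Finset.mem_image.mpr ⟨(a, b), Finset.mem_filter.mpr ⟨ha, Or.inl h2⟩, rfl⟩, Or.inr h1⟩
    rcases h with h | h
    · exact Or.inl (aux u h)
    · exact Or.inr (aux v h)
  exact (isoNum_le key).trans Finset.card_image_le

lemma fiber_dom (G : SimpleGraph V) (H : SimpleGraph W) (A : Finset (V × W))
    (hA : IsIsolating (G.boxProd H) A) (g g' : V) (hgg : G.Adj g g') :
    domNum H ≤ (A.filter (fun x => InN G x.1 g ∨ InN G x.1 g')).card := by
  have key : IsDominating H ((A.filter (fun x => InN G x.1 g ∨ InN G x.1 g')).image Prod.snd) := by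
    intro w
    have h := hA (g, w) (g', w) (SimpleGraph.boxProd_adj_left.mpr hgg)
    have aux : ∀ k : V, (k = g ∨ k = g') → (∃ a ∈ A, InN (G.boxProd H) a (k, w)) →
        ∃ a ∈ (A.filter (fun x => InN G x.1 g ∨ InN G x.1 g')).image Prod.snd, InN H a w := by
      rintro k hk ⟨⟨a, b⟩, ha, hab⟩
      have mem : InN G a k → (a, b) ∈ A.filter (fun x => InN G x.1 g ∨ InN G x.1 g') := by
        intro hm
        rw [Finset.mem_filter]
        refine ⟨ha, ?_⟩
        rcases hk with rfl | rfl
        · exact Or.inl hm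
        · exact Or.inr hm
      rcases hab with h | h
      · have h1 : a = k := congrArg Prod.fst h
        have h2 : b = w := congrArg Prod.snd h
        exact ⟨b, Finset.mem_image.mpr ⟨(a, b), mem (Or.inl h1), rfl⟩, Or.inl h2⟩
      · rw [SimpleGraph.boxProd_adj] at h
        rcases h with ⟨h1, h2⟩ | ⟨h1, h2⟩
        · exact ⟨b, Finset.mem_image.mpr ⟨(a, b), mem (Or.inr h1), rfl⟩, Or.inl h2⟩
        · exact ⟨b, Finset.mem_image.mpr ⟨(a, b), mem (Or.inl h2), rfl⟩, Or.inr h1⟩
    rcases h with h | h
    · exact aux g (Or.inl rfl) h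
    · exact aux g' (Or.inr rfl) h
  exact (domNum_le key).trans Finset.card_image_le

/-! ### rooted forests -/

lemma depth_step (G : SimpleGraph V) (hG : G.IsAcyclic) (r v w : V) (hr : G.Reachable r v)
    (h : G.Adj v w) : G.dist r w = G.dist r v + 1 ∨ G.dist r v = G.dist r w + 1 := by
  obtain ⟨p, hp, hpl⟩ := hr.exists_path_of_dist
  obtain ⟨q, hq, hql⟩ := (hr.trans h.reachable).exists_path_of_dist
  by_cases hv : v ∈ q.support
  · left
    have := hG.path_concat hp hq h hv
    rw [← hpl, ← hql, this, SimpleGraph.Walk.length_concat]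
  · right
    have hw := hG.mem_support_of_ne_mem_support_of_adj_of_isPath hp hq h hv
    have := hG.path_concat hq hp h.symm hw
    rw [← hpl, ← hql, this, SimpleGraph.Walk.length_concat]

lemma parent_unique (G : SimpleGraph V) (hG : G.IsAcyclic) (r u u' v : V) (hr : G.Reachable r v)
    (h : G.Adj u v) (h' : G.Adj u' v) (hd : G.dist r v = G.dist r u + 1)
    (hd' : G.dist r v = G.dist r u' + 1) : u = u' := by
  obtain ⟨q, hq, hql⟩ := hr.exists_path_of_dist
  have aux : ∀ x, G.Adj x v → G.dist r v = G.dist r x + 1 → x = q.penultimate := by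
    intro x hx hdx
    obtain ⟨p, hp, hpl⟩ := (hr.trans hx.symm.reachable).exists_path_of_dist
    have hxq : x ∈ q.support := by
      by_contra hcon
      have hw := hG.mem_support_of_ne_mem_support_of_adj_of_isPath hp hq hx hcon
      have := hG.path_concat hq hp hx.symm hw
      have hl : p.length = q.length + 1 := by rw [this, SimpleGraph.Walk.length_concat]
      omega
    exact hG.eq_penultimate_of_adj_end hq hx.symm hxq
  rw [aux u h hd, aux u' h' hd']

lemma forest_structure (G : SimpleGraph V) (hG : G.IsAcyclic) :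
    ∃ (depth : V → ℕ) (par : V → V), ∀ u v, G.Adj u v →
      (par v = u ∧ depth v = depth u + 1) ∨ (par u = v ∧ depth u = depth v + 1) := by
  obtain ⟨rt, hrt⟩ : ∃ rt : V → V, (∀ v, G.Reachable (rt v) v) ∧ (∀ u v, G.Adj u v → rt u = rt v) := by
    refine ⟨fun v => (G.connectedComponentMk v).out, ?_, ?_⟩
    · intro v
      exact SimpleGraph.ConnectedComponent.exact (Quot.out_eq (G.connectedComponentMk v))
    · intro u v huv
      have : G.connectedComponentMk u = G.connectedComponentMk v :=
        SimpleGraph.ConnectedComponent.sound huv.reachable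
      simp only [this]
  obtain ⟨h1, h2⟩ := hrt
  let depth : V → ℕ := fun v => G.dist (rt v) v
  have hstep : ∀ u v, G.Adj u v → depth v = depth u + 1 ∨ depth u = depth v + 1 := by
    intro u v huv
    have := depth_step G hG (rt u) u v (h1 u) huv
    show G.dist (rt v) v = G.dist (rt u) u + 1 ∨ G.dist (rt u) u = G.dist (rt v) v + 1
    rw [← h2 u v huv]
    exact this
  have huniq : ∀ u u' v, G.Adj u v → G.Adj u' v → depth v = depth u + 1 → depth v = depth u' + 1 →
      u = u' := by
    intro u u' v h h' hd hd'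
    apply parent_unique G hG (rt v) u u' v (h1 v) h h'
    · have e := h2 u v h
      have : G.dist (rt v) v = G.dist (rt u) u + 1 := hd
      rw [e] at this; exact this
    · have e := h2 u' v h'
      have : G.dist (rt v) v = G.dist (rt u') u' + 1 := hd'
      rw [e] at this; exact this
  let par : V → V := fun v => if h : ∃ u, G.Adj u v ∧ depth v = depth u + 1 then h.choose else v
  have hpar : ∀ u v, G.Adj u v → depth v = depth u + 1 → par v = u := by
    intro u v h hd
    have hex : ∃ u, G.Adj u v ∧ depth v = depth u + 1 := ⟨u, h, hd⟩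
    have e : par v = hex.choose := dif_pos hex
    rw [e]
    exact huniq _ _ v hex.choose_spec.1 h hex.choose_spec.2 hd
  refine ⟨depth, par, ?_⟩
  intro u v huv
  rcases hstep u v huv with h | h
  · left; exact ⟨hpar u v huv h, h⟩
  · right; exact ⟨hpar v u huv.symm h, h⟩

/-- greedy packing/hitting duality for ancestor-closed (up to the top) sets -/
lemma greedy {ι : Type*} (depth : V → ℕ) (par : V → V) (S : ι → V → Prop) (t : ι → V)
    (ht : ∀ i, S i (t i))
    (hS : ∀ i s, S i s → s ≠ t i → S i (par s) ∧ depth s = depth (par s) + 1) :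
    ∀ (n : ℕ) (F : Finset ι), F.card = n → ∃ (P : Finset ι) (D : Finset V), P ⊆ F ∧
      (∀ i ∈ P, ∀ j ∈ P, i ≠ j → ∀ v, ¬ (S i v ∧ S j v)) ∧ D.card ≤ P.card ∧
      ∀ i ∈ F, ∃ d ∈ D, S i d := by
  have ha : ∀ i, ∀ k, ∀ s, depth s = k → S i s → depth (t i) ≤ depth s ∧ (s ≠ t i → depth (t i) < depth s) := by
    intro i k
    induction k using Nat.strong_induction_on with
    | _ k ih =>
      intro s hs hSs
      by_cases h : s = t i
      · subst h; exact ⟨le_rfl, fun h => absurd rfl h⟩
      · obtain ⟨h1, h2⟩ := hS i s hSs h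
        have := (ih (depth (par s)) (by omega) (par s) rfl h1).1
        exact ⟨by omega, fun _ => by omega⟩
  have hb : ∀ i j, depth (t j) ≤ depth (t i) → ∀ k, ∀ z, depth z = k → S i z → S j z → S j (t i) := by
    intro i j hij k
    induction k using Nat.strong_induction_on with
    | _ k ih =>
      intro z hz hi hj
      by_cases h : z = t i
      · rw [← h]; exact hj
      · obtain ⟨h1, h2⟩ := hS i z hi h
        have h3 := (ha i _ z rfl hi).2 h
        have h4 : z ≠ t j := by
          rintro rfl; omega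
        obtain ⟨h5, _⟩ := hS j z hj h4
        exact ih (depth (par z)) (by omega) (par z) rfl h1 h5
  intro n
  induction n using Nat.strong_induction_on with
  | _ n ih =>
    intro F hF
    by_cases hemp : F = ∅
    · refine ⟨∅, ∅, by simp, by simp, by simp, ?_⟩
      intro i hi; rw [hemp] at hi; simp at hi
    · obtain ⟨i0, hi0, hmax⟩ := Finset.exists_max_image F (fun i => depth (t i))
        (Finset.nonempty_iff_ne_empty.mpr hemp)
      have hlt : (F.filter (fun i => ¬ S i (t i0))).card < n := by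
        rw [← hF]
        apply Finset.card_lt_card
        refine ⟨Finset.filter_subset _ _, fun hsub => ?_⟩
        have := hsub hi0
        rw [Finset.mem_filter] at this
        exact this.2 (ht i0)
      obtain ⟨P, D, hPF, hdis, hcard, hhit⟩ := ih _ hlt (F.filter (fun i => ¬ S i (t i0))) rfl
      have hi0P : i0 ∉ P := by
        intro h
        have := hPF h
        rw [Finset.mem_filter] at this
        exact this.2 (ht i0)
      have hd0 : ∀ j ∈ P, ∀ v, ¬ (S i0 v ∧ S j v) := by
        rintro j hj v ⟨h1, h2⟩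
        have hjF := hPF hj
        rw [Finset.mem_filter] at hjF
        exact hjF.2 (hb i0 j (hmax j hjF.1) _ v rfl h1 h2)
      refine ⟨insert i0 P, insert (t i0) D, ?_, ?_, ?_, ?_⟩
      · intro i hi
        rcases Finset.mem_insert.mp hi with rfl | hi
        · exact hi0
        · exact Finset.filter_subset _ _ (hPF hi)
      · intro i hi j hj hij v
        rcases Finset.mem_insert.mp hi with h1 | h1
        · rcases Finset.mem_insert.mp hj with h2 | h2
          · exact absurd (h1.trans h2.symm) hij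
          · rw [h1]; exact hd0 j h2 v
        · rcases Finset.mem_insert.mp hj with h2 | h2
          · rw [h2]; rintro ⟨h3, h4⟩; exact hd0 i h1 v ⟨h4, h3⟩
          · exact hdis i h1 j h2 hij v
      · rw [Finset.card_insert_of_notMem hi0P]
        exact (Finset.card_insert_le _ _).trans (by omega)
      · intro i hi
        by_cases h : S i (t i0)
        · exact ⟨t i0, Finset.mem_insert_self _ _, h⟩
        · obtain ⟨d, hd, hd'⟩ := hhit i (Finset.mem_filter.mpr ⟨hi, h⟩)
          exact ⟨d, Finset.mem_insert_of_mem hd, hd'⟩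

lemma disj_to_frac {ι : Type*} (P : Finset ι) (S : ι → V → Prop)
    (hd : ∀ i ∈ P, ∀ j ∈ P, i ≠ j → ∀ v, ¬ (S i v ∧ S j v)) (v : V) :
    ∑ i ∈ P, (if S i v then (1:ℝ) else 0) ≤ 1 := by
  rw [← Finset.sum_filter, Finset.sum_const, nsmul_eq_mul, mul_one]
  have : (P.filter (fun i => S i v)).card ≤ 1 := by
    rw [Finset.card_le_one]
    intro a ha b hb
    rw [Finset.mem_filter] at ha hb
    by_contra hab
    exact hd a ha.1 b hb.1 hab v ⟨ha.2, hb.2⟩
  exact_mod_cast this

lemma InN_symm {G : SimpleGraph V} {x v : V} (h : InN G x v) : InN G v x := by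
  rcases h with h | h
  · exact Or.inl h.symm
  · exact Or.inr h.symm

/-- in a finite forest there are a dominating set and a 2-packing of the same size -/
lemma forest_vertices [Fintype V] (G : SimpleGraph V) (hG : G.IsAcyclic) :
    ∃ P : Finset V, domNum G ≤ P.card ∧
      (∀ i ∈ P, ∀ j ∈ P, i ≠ j → ∀ v, ¬ (InN G v i ∧ InN G v j)) := by
  obtain ⟨depth, par, hst⟩ := forest_structure G hG
  let t : V → V := fun v => if G.Adj (par v) v ∧ depth v = depth (par v) + 1 then par v else v
  have ht : ∀ i, (fun i v => InN G v i) i (t i) := by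
    intro i
    show InN G (t i) i
    by_cases h : G.Adj (par i) i ∧ depth i = depth (par i) + 1
    · have e : t i = par i := if_pos h
      rw [e]; exact Or.inr h.1
    · have e : t i = i := if_neg h
      rw [e]; exact Or.inl rfl
  have hS : ∀ i s, (fun i v => InN G v i) i s → s ≠ t i →
      (fun i v => InN G v i) i (par s) ∧ depth s = depth (par s) + 1 := by
    intro i s hs hne
    have hs' : InN G s i := hs
    show InN G (par s) i ∧ depth s = depth (par s) + 1
    by_cases h : G.Adj (par i) i ∧ depth i = depth (par i) + 1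
    · have e : t i = par i := if_pos h
      rw [e] at hne
      rcases hs' with rfl | hs'
      · exact ⟨Or.inr h.1, h.2⟩
      · rcases hst s i hs' with h1 | h1
        · exact absurd h1.1.symm hne
        · rw [h1.1]; exact ⟨Or.inl rfl, h1.2⟩
    · have e : t i = i := if_neg h
      rw [e] at hne
      rcases hs' with h0 | hs'
      · exact absurd h0 hne
      · rcases hst s i hs' with h1 | h1
        · exfalso; apply h
          rw [h1.1]; exact ⟨hs', h1.2⟩
        · rw [h1.1]; exact ⟨Or.inl rfl, h1.2⟩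
  obtain ⟨P, D, _, hdis, hcard, hhit⟩ := greedy depth par (fun i v => InN G v i) t ht hS _
    (Finset.univ : Finset V) rfl
  refine ⟨P, ?_, hdis⟩
  have hD : IsDominating G D := by
    intro v
    obtain ⟨d, hd, hd'⟩ := hhit v (Finset.mem_univ _)
    exact ⟨d, hd, hd'⟩
  exact (domNum_le hD).trans hcard

/-- in a finite forest there are an isolating set and a family, of the same size, of edges with
pairwise disjoint closed neighbourhoods -/
lemma forest_edges [Fintype V] (G : SimpleGraph V) (hG : G.IsAcyclic) :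
    ∃ P : Finset (V × V), isoNum G ≤ P.card ∧ (∀ e ∈ P, G.Adj e.1 e.2) ∧
      (∀ e ∈ P, ∀ f ∈ P, e ≠ f → ∀ v, ¬ ((InN G v e.1 ∨ InN G v e.2) ∧ (InN G v f.1 ∨ InN G v f.2))) := by
  obtain ⟨depth, par, hst⟩ := forest_structure G hG
  let t0 : V → V := fun v => if G.Adj (par v) v ∧ depth v = depth (par v) + 1 then par v else v
  let S : {e : V × V // G.Adj e.1 e.2 ∧ par e.2 = e.1 ∧ depth e.2 = depth e.1 + 1} → V → Prop :=
    fun e v => InN G v e.1.1 ∨ InN G v e.1.2
  let t : {e : V × V // G.Adj e.1 e.2 ∧ par e.2 = e.1 ∧ depth e.2 = depth e.1 + 1} → V :=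
    fun e => t0 e.1.1
  have ht0 : ∀ i, InN G (t0 i) i := by
    intro i
    by_cases h : G.Adj (par i) i ∧ depth i = depth (par i) + 1
    · have e : t0 i = par i := if_pos h
      rw [e]; exact Or.inr h.1
    · have e : t0 i = i := if_neg h
      rw [e]; exact Or.inl rfl
  have hS0 : ∀ i s, InN G s i → s ≠ t0 i → InN G (par s) i ∧ depth s = depth (par s) + 1 := by
    intro i s hs' hne
    by_cases h : G.Adj (par i) i ∧ depth i = depth (par i) + 1
    · have e : t0 i = par i := if_pos h
      rw [e] at hne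
      rcases hs' with rfl | hs'
      · exact ⟨Or.inr h.1, h.2⟩
      · rcases hst s i hs' with h1 | h1
        · exact absurd h1.1.symm hne
        · rw [h1.1]; exact ⟨Or.inl rfl, h1.2⟩
    · have e : t0 i = i := if_neg h
      rw [e] at hne
      rcases hs' with h0 | hs'
      · exact absurd h0 hne
      · rcases hst s i hs' with h1 | h1
        · exfalso; apply h
          rw [h1.1]; exact ⟨hs', h1.2⟩
        · rw [h1.1]; exact ⟨Or.inl rfl, h1.2⟩
  have ht : ∀ i, S i (t i) := fun i => Or.inl (ht0 i.1.1)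
  have hS : ∀ i s, S i s → s ≠ t i → S i (par s) ∧ depth s = depth (par s) + 1 := by
    rintro ⟨⟨u, v⟩, huv, hpar, hdep⟩ s hs hne
    have huv' : G.Adj u v := huv
    have hpar' : par v = u := hpar
    have hdep' : depth v = depth u + 1 := hdep
    have hne' : s ≠ t0 u := hne
    have hs' : InN G s u ∨ InN G s v := hs
    show (InN G (par s) u ∨ InN G (par s) v) ∧ depth s = depth (par s) + 1
    have caseu : InN G s u → (InN G (par s) u ∨ InN G (par s) v) ∧ depth s = depth (par s) + 1 := by
      intro h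
      obtain ⟨h1, h2⟩ := hS0 u s h hne'
      exact ⟨Or.inl h1, h2⟩
    rcases hs' with h | h
    · exact caseu h
    · rcases h with h | h
      · subst h
        rw [hpar']
        exact ⟨Or.inl (Or.inl rfl), hdep'⟩
      · rcases hst s v h with h1 | h1
        · have : s = u := h1.1.symm.trans hpar'
          exact caseu (Or.inl this)
        · rw [h1.1]; exact ⟨Or.inr (Or.inl rfl), h1.2⟩
  obtain ⟨P, D, _, hdis, hcard, hhit⟩ := greedy depth par S t ht hS _ Finset.univ rfl
  refine ⟨P.map ⟨Subtype.val, Subtype.val_injective⟩, ?_, ?_, ?_⟩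
  · rw [Finset.card_map]
    have hD : IsIsolating G D := by
      intro u v huv
      rcases hst u v huv with h | h
      · obtain ⟨d, hd, hd'⟩ := hhit ⟨(u, v), huv, h.1, h.2⟩ (Finset.mem_univ _)
        rcases hd' with h1 | h1
        · exact Or.inl ⟨d, hd, h1⟩
        · exact Or.inr ⟨d, hd, h1⟩
      · obtain ⟨d, hd, hd'⟩ := hhit ⟨(v, u), huv.symm, h.1, h.2⟩ (Finset.mem_univ _)
        rcases hd' with h1 | h1
        · exact Or.inr ⟨d, hd, h1⟩
        · exact Or.inl ⟨d, hd, h1⟩
    exact (isoNum_le hD).trans hcard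
  · intro e he
    rw [Finset.mem_map] at he
    obtain ⟨e', _, rfl⟩ := he
    exact e'.2.1
  · intro e he f hf hef v
    rw [Finset.mem_map] at he hf
    obtain ⟨e', he', rfl⟩ := he
    obtain ⟨f', hf', rfl⟩ := hf
    exact hdis e' he' f' hf' (fun h => hef (by rw [h])) v

theorem frac_vertices [Fintype V] [Fintype W] (G : SimpleGraph V) (H : SimpleGraph W)
    (y : V → ℝ) (hy0 : ∀ v, 0 ≤ y v)
    (hy : ∀ v, ∑ u, (if InN G v u then y u else 0) ≤ 1) :
    (∑ u, y u) * isoNum H ≤ isoNum (G.boxProd H) := by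
  obtain ⟨A, hA, hc⟩ := exists_iso (G.boxProd H)
  rw [← hc]
  apply frac Finset.univ (fun i v => InN G v i) y A (isoNum H) (fun i _ => hy0 i) hy
  intro g _ _
  exact_mod_cast fiber_iso G H A hA g

theorem frac_edges [Fintype V] [Fintype W] (G : SimpleGraph V) (H : SimpleGraph W)
    (z : V × V → ℝ) (hz0 : ∀ e, 0 ≤ z e) (hzs : ∀ e, z e ≠ 0 → G.Adj e.1 e.2)
    (hz : ∀ v, ∑ e, (if InN G v e.1 ∨ InN G v e.2 then z e else 0) ≤ 1) :
    (∑ e, z e) * domNum H ≤ isoNum (G.boxProd H) := by
  obtain ⟨A, hA, hc⟩ := exists_iso (G.boxProd H)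
  rw [← hc]
  apply frac Finset.univ (fun e v => InN G v e.1 ∨ InN G v e.2) z A (domNum H) (fun i _ => hz0 i)
    (by intro v; convert hz v)
  intro e _ he
  have h1 := fiber_dom G H A hA e.1 e.2 (hzs e he)
  rw [Nat.cast_le]
  convert h1

theorem forest_one [Fintype V] [Fintype W] (G : SimpleGraph V) (H : SimpleGraph W)
    (hG : G.IsAcyclic) : domNum G * isoNum H ≤ isoNum (G.boxProd H) := by
  obtain ⟨P, hP, hdis⟩ := forest_vertices G hG
  obtain ⟨A, hA, hc⟩ := exists_iso (G.boxProd H)
  have h := frac P (fun i v => InN G v i) (fun _ => (1:ℝ)) A (isoNum H) (fun _ _ => zero_le_one)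
    (disj_to_frac P _ hdis) (fun g _ _ => by exact_mod_cast fiber_iso G H A hA g)
  simp only [Finset.sum_const, nsmul_eq_mul, mul_one] at h
  have h' : P.card * isoNum H ≤ A.card := by exact_mod_cast h
  calc domNum G * isoNum H ≤ P.card * isoNum H := Nat.mul_le_mul_right _ hP
    _ ≤ A.card := h'
    _ = _ := hc

theorem forest_two [Fintype V] [Fintype W] (G : SimpleGraph V) (H : SimpleGraph W)
    (hG : G.IsAcyclic) : isoNum G * domNum H ≤ isoNum (G.boxProd H) := by
  obtain ⟨P, hP, hadj, hdis⟩ := forest_edges G hG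
  obtain ⟨A, hA, hc⟩ := exists_iso (G.boxProd H)
  have h := frac P (fun e v => InN G v e.1 ∨ InN G v e.2) (fun _ => (1:ℝ)) A (domNum H)
    (fun _ _ => zero_le_one) (disj_to_frac P _ hdis)
    (fun e he _ => by
      have h1 := fiber_dom G H A hA e.1 e.2 (hadj e he)
      rw [Nat.cast_le]
      convert h1)
  simp only [Finset.sum_const, nsmul_eq_mul, mul_one] at h
  have h' : P.card * domNum H ≤ A.card := by exact_mod_cast h
  calc isoNum G * domNum H ≤ P.card * domNum H := Nat.mul_le_mul_right _ hP
    _ ≤ A.card := h'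
    _ = _ := hc

theorem degree_bound [Fintype V] [Fintype W] (G : SimpleGraph V) (H : SimpleGraph W) (d : ℕ)
    (hd : ∀ v, (Finset.univ.filter (fun u => G.Adj v u)).card ≤ d) :
    isoNum G * isoNum H ≤ d * isoNum (G.boxProd H) := by
  let F : Finset (Finset V) := Finset.univ.filter (fun P : Finset V =>
    ∀ i ∈ P, ∀ j ∈ P, i ≠ j → ∀ v, ¬ (InN G v i ∧ InN G v j))
  have hF : F.Nonempty := ⟨∅, by simp [F]⟩
  obtain ⟨P, hPF, hmax⟩ := Finset.exists_max_image F Finset.card hF
  have hdis : ∀ i ∈ P, ∀ j ∈ P, i ≠ j → ∀ v, ¬ (InN G v i ∧ InN G v j) := by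
    have := (Finset.mem_filter.mp hPF).2
    exact this
  let N : Finset V := P.biUnion (fun p => Finset.univ.filter (fun u => G.Adj p u))
  have hN : N.card ≤ P.card * d := Finset.card_biUnion_le_card_mul _ _ _ (fun p _ => hd p)
  have hmemN : ∀ p ∈ P, ∀ x, G.Adj p x → x ∈ N := by
    intro p hp x hx
    exact Finset.mem_biUnion.mpr ⟨p, hp, Finset.mem_filter.mpr ⟨Finset.mem_univ _, hx⟩⟩
  have hiso : IsIsolating G N := by
    intro u v huv
    by_cases hu : u ∈ P
    · exact Or.inr ⟨v, hmemN u hu v huv, Or.inl rfl⟩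
    · left
      by_contra hcon
      have hins : insert u P ∈ F := by
        refine Finset.mem_filter.mpr ⟨Finset.mem_univ _, ?_⟩
        have key : ∀ j ∈ P, ∀ x, ¬ (InN G x u ∧ InN G x j) := by
          rintro j hj x ⟨h1, h2⟩
          apply hcon
          rcases h2 with h2 | h2
          · subst h2
            rcases h1 with h1 | h1
            · exact absurd (h1 ▸ hj) hu
            · exact ⟨u, hmemN x hj u h1, Or.inl rfl⟩
          · exact ⟨x, hmemN j hj x h2.symm, h1⟩
        intro i hi j hj hij x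
        rcases Finset.mem_insert.mp hi with h1 | h1
        · rcases Finset.mem_insert.mp hj with h2 | h2
          · exact absurd (h1.trans h2.symm) hij
          · rw [h1]; exact key j h2 x
        · rcases Finset.mem_insert.mp hj with h2 | h2
          · rw [h2]; rintro ⟨h3, h4⟩; exact key i h1 x ⟨h4, h3⟩
          · exact hdis i h1 j h2 hij x
      have := hmax _ hins
      rw [Finset.card_insert_of_notMem hu] at this
      omega
  have h1 : isoNum G ≤ P.card * d := (isoNum_le hiso).trans hN
  obtain ⟨A, hA, hc⟩ := exists_iso (G.boxProd H)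
  have h := frac P (fun i v => InN G v i) (fun _ => (1:ℝ)) A (isoNum H) (fun _ _ => zero_le_one)
    (disj_to_frac P _ hdis) (fun g _ _ => by exact_mod_cast fiber_iso G H A hA g)
  simp only [Finset.sum_const, nsmul_eq_mul, mul_one] at h
  have h' : P.card * isoNum H ≤ A.card := by exact_mod_cast h
  calc isoNum G * isoNum H ≤ (P.card * d) * isoNum H := Nat.mul_le_mul_right _ h1
    _ = d * (P.card * isoNum H) := by ring
    _ ≤ d * A.card := Nat.mul_le_mul_left _ h'
    _ = _ := by rw [hc]

/-- **Vizing-type bounds for the isolation number.**  Let `G`, `H` be finite graphs.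
(1) For every fractional packing `y` of the closed neighbourhoods of `G`,
    `(∑ y) ι(H) ≤ ι(G □ H)`.
(2) For every fractional packing `z` of the closed neighbourhoods of edges of `G`,
    `(∑ z) γ(H) ≤ ι(G □ H)`.
(3) If `G` is a forest, then `γ(G) ι(H) ≤ ι(G □ H)`, `ι(G) γ(H) ≤ ι(G □ H)` and in particular
    `ι(G) ι(H) ≤ ι(G □ H)`.
(4) If every vertex of `G` has degree at most `d`, then `ι(G) ι(H) ≤ d ι(G □ H)`. -/
theorem result [Fintype V] [Fintype W] (G : SimpleGraph V) (H : SimpleGraph W) :
    (∀ y : V → ℝ, (∀ v, 0 ≤ y v) → (∀ v, ∑ u, (if InN G v u then y u else 0) ≤ 1) →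
      (∑ u, y u) * isoNum H ≤ isoNum (G.boxProd H)) ∧
    (∀ z : V × V → ℝ, (∀ e, 0 ≤ z e) → (∀ e, z e ≠ 0 → G.Adj e.1 e.2) →
      (∀ v, ∑ e, (if InN G v e.1 ∨ InN G v e.2 then z e else 0) ≤ 1) →
      (∑ e, z e) * domNum H ≤ isoNum (G.boxProd H)) ∧
    (G.IsAcyclic → domNum G * isoNum H ≤ isoNum (G.boxProd H) ∧
      isoNum G * domNum H ≤ isoNum (G.boxProd H) ∧
      isoNum G * isoNum H ≤ isoNum (G.boxProd H)) ∧
    (∀ d : ℕ, (∀ v, (Finset.univ.filter (fun u => G.Adj v u)).card ≤ d) →
      isoNum G * isoNum H ≤ d * isoNum (G.boxProd H)) := by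
  refine ⟨fun y h1 h2 => frac_vertices G H y h1 h2, fun z h1 h2 h3 => frac_edges G H z h1 h2 h3,
    fun hG => ⟨forest_one G H hG, forest_two G H hG, ?_⟩, fun d hd => degree_bound G H d hd⟩
  exact (Nat.mul_le_mul_right _ (iso_le_dom G)).trans (forest_one G H hG)

end Pool.Agent.Results.MP_e0e9b7_co.ForestFactor
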